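import Mathlib

/-! # MP_a7ed83_ag : definitions -/

open Polynomial

namespace ETT

universe u v

/-- The theorem of Evertse, Schlickewei and Schmidt (Ann. of Math. 155, 2002, Theorem 1.1) for
finitely generated groups of complex vectors: the number of non-degenerate solutions of
`a_1 x_1 + ... + a_n x_n = 1` in a group generated by `r` elements is bounded in terms of `n`
and `r` only. -/
def ESS : Prop :=
  ∀ n r : ℕ, ∃ B : ℕ, ∀ (a : Fin n → ℂ) (g : Fin r → Fin n → ℂˣ), (∀ i, a i ≠ 0) →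
    {x : Fin n → ℂˣ | x ∈ Subgroup.closure (Set.range g) ∧ ∑ i, a i * (x i : ℂ) = 1 ∧
      ∀ I : Finset (Fin n), I.Nonempty → ∑ i ∈ I, a i * (x i : ℂ) ≠ 0}.encard ≤ B

/-- `X` is the quotient of the abelian group `A` by a finite set `Γ` (at most `D` elements) of
affine maps `x ↦ γ x + c`, and `q` is a height on `A` (positive on the elements of infinite
order) invariant under the linear parts. -/
structure Cover (D : ℕ) (X : Type u) (A : Type v) [AddCommGroup A] where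
  π : A → X
  Γ : Finset (AddMonoid.End A × A)
  q : A → ℝ
  surj : Function.Surjective π
  fib : ∀ x y, π x = π y ↔ ∃ γ ∈ Γ, x = γ.1 y + γ.2
  card : Γ.card ≤ D
  qpos : ∀ x, (∀ k : ℕ, 0 < k → k • x ≠ 0) → 0 < q x
  qsmul : ∀ (k : ℕ) (x : A), q (k • x) = (k : ℝ) ^ 2 * q x
  qinv : ∀ γ ∈ Γ, ∀ x, q (γ.1 x) = q x

/-- `f` lifts to the affine map `z + x ↦ z + α x` of `A`, which multiplies the height by
`δ > 1`; `α` is killed by a squarefree monic integer polynomial of degree at most `D`. -/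
structure Lift {D : ℕ} {X : Type u} {A : Type v} [AddCommGroup A] (C : Cover D X A)
    (f : X → X) where
  α : AddMonoid.End A
  z : A
  δ : ℝ
  lift : ∀ x, f (C.π (z + x)) = C.π (z + α x)
  one_lt : 1 < δ
  eig : ∀ x, C.q (α x) = δ * C.q x
  poly : ∃ p : ℤ[X], p.Monic ∧ p.natDegree ≤ D ∧ Squarefree (p.map (Int.castRingHom ℚ)) ∧
    aeval α p = 0

/-- The set of all `(m, n)` with `f^m (P) = g^n (Q)`. -/
def Pairs {X : Type u} (f g : X → X) (P Q : X) : Set (ℕ × ℕ) :=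
  {mn | f^[mn.1] P = g^[mn.2] Q}

/-- Linear families. -/
def LinFam (a b c d : ℕ) : Set (ℕ × ℕ) := {x | ∃ l : ℕ, x = (a + b * l, c + d * l)}

/-- Finite unions of linear families. -/
def FinLin (S : Set (ℕ × ℕ)) : Prop :=
  ∃ T : Finset (ℕ × ℕ × ℕ × ℕ), S = {x | ∃ t ∈ T, x ∈ LinFam t.1 t.2.1 t.2.2.1 t.2.2.2}

/-- The common hypotheses on one endomorphism `α` of `A` (used in the proofs). -/
structure QD {A : Type v} [AddCommGroup A] (q : A → ℝ) (α : AddMonoid.End A) (δ : ℝ) (D : ℕ) :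
    Prop where
  pos : ∀ x, (∀ k : ℕ, 0 < k → k • x ≠ 0) → 0 < q x
  smul : ∀ (k : ℕ) (x : A), q (k • x) = (k : ℝ) ^ 2 * q x
  one_lt : 1 < δ
  eig : ∀ x, q (α x) = δ * q x
  poly : ∃ p : ℤ[X], p.Monic ∧ p.natDegree ≤ D ∧ Squarefree (p.map (Int.castRingHom ℚ)) ∧
    aeval α p = 0

/-- Eventually periodic sets of natural numbers. -/
def EP (Z : Set ℕ) : Prop := ∃ L N : ℕ, 0 < L ∧ ∀ n ≥ N, (n ∈ Z ↔ n + L ∈ Z)

/-- `x` has finite order. -/
def Tors {A : Type v} [AddCommGroup A] (x : A) : Prop := ∃ k : ℕ, 0 < k ∧ k • x = 0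

end ETT
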