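import Mathlib

/-! # MP_a7ed83_ag : definitions used in the final statement -/

open Polynomial

namespace OrbitIntersections

universe u v

/-- `X` is the quotient of the abelian group `A` by a finite set `Γ` (at most `D` elements) of
affine maps `x ↦ γ x + c` (in the application `A → X` is a Galois covering by an abelian
variety, on points, and `Γ` its group). -/
structure Covering (D : ℕ) (X : Type u) (A : Type v) [AddCommGroup A] where
  π : A → X
  Γ : Finset (AddMonoid.End A × A)
  surj : Function.Surjective π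
  fib : ∀ x y, π x = π y ↔ ∃ γ ∈ Γ, x = γ.1 y + γ.2
  card : Γ.card ≤ D

/-- `f` lifts to the affine map `z + x ↦ z + α x` of `A`; `α` is killed by a squarefree monic
integer polynomial of degree at most `D` all of whose complex roots have absolute value `√δ`,
`δ > 1`. -/
structure Lift {D : ℕ} {X : Type u} {A : Type v} [AddCommGroup A] (C : Covering D X A)
    (f : X → X) where
  α : AddMonoid.End A
  z : A
  δ : ℝ
  lift : ∀ x, f (C.π (z + x)) = C.π (z + α x)
  one_lt : 1 < δ
  weil : ∃ p : ℤ[X], p.Monic ∧ p.natDegree ≤ D ∧ Squarefree (p.map (Int.castRingHom ℚ)) ∧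
    aeval α p = 0 ∧ ∀ z : ℂ, aeval z p = 0 → ‖z‖ ^ 2 = δ

/-- `x` has infinite order. -/
def InfOrder {A : Type v} [AddCommGroup A] (x : A) : Prop := ∀ k : ℕ, 0 < k → k • x ≠ 0

/-- `q` behaves like a Neron-Tate height: positive on elements of infinite order, quadratic on
multiples, invariant under the linear parts of `Γ`, multiplied by `δ` under the linear part of
`f` (and of `g`). -/
structure IsHeight {D : ℕ} {X : Type u} {A : Type v} [AddCommGroup A] {C : Covering D X A}
    {f g : X → X} (F : Lift C f) (G : Lift C g) (q : A → ℝ) : Prop where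
  pos : ∀ x, InfOrder x → 0 < q x
  smul : ∀ (k : ℕ) (x : A), q (k • x) = (k : ℝ) ^ 2 * q x
  inv : ∀ γ ∈ C.Γ, ∀ x, q (γ.1 x) = q x
  eigf : ∀ x, q (F.α x) = F.δ * q x
  eigg : ∀ x, q (G.α x) = G.δ * q x

/-- The linear parts of `f` and `g` commute, and that of `g` commutes with those of `Γ`, after
replacing them by their `k`-th powers, for some `k`, `1 ≤ k ≤ D`. -/
def Commuting {D : ℕ} {X : Type u} {A : Type v} [AddCommGroup A] {C : Covering D X A}
    {f g : X → X} (F : Lift C f) (G : Lift C g) : Prop :=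
  ∃ k : ℕ, 0 < k ∧ k ≤ D ∧ F.α ^ k * G.α ^ k = G.α ^ k * F.α ^ k ∧
    ∀ γ ∈ C.Γ, G.α ^ k * γ.1 = γ.1 * G.α ^ k

/-- A rational symmetric bilinear form, positive definite modulo torsion, invariant under the
linear parts of `Γ`, such that for some `k ≥ 1` the `k`-th powers of the linear parts of `f` and
`g` are similitudes with integral factors `δ_f ^ k`, `δ_g ^ k`. -/
structure IsForm {D : ℕ} {X : Type u} {A : Type v} [AddCommGroup A] {C : Covering D X A}
    {f g : X → X} (F : Lift C f) (G : Lift C g) (B : A →+ A →+ ℚ) (k a b : ℕ) : Prop where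
  hk : 0 < k
  ha : F.δ ^ k = a
  hb : G.δ ^ k = b
  symm : ∀ x y, B x y = B y x
  pos : ∀ x, InfOrder x → 0 < B x x
  inv : ∀ γ ∈ C.Γ, ∀ x, B (γ.1 x) (γ.1 x) = B x x
  simf : ∀ x, B ((F.α ^ k) x) ((F.α ^ k) x) = a * B x x
  simg : ∀ x, B ((G.α ^ k) x) ((G.α ^ k) x) = b * B x x

/-- The set of all `(m, n)` with `f^m (P) = g^n (Q)`. -/
def Pairs {X : Type u} (f g : X → X) (P Q : X) : Set (ℕ × ℕ) :=
  {mn | f^[mn.1] P = g^[mn.2] Q}

/-- The forward orbit of `P` is infinite. -/
def InfOrbit {X : Type u} (f : X → X) (P : X) : Prop := (Set.range fun n : ℕ => f^[n] P).Infinite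

/-- The linear family `{(a + b l, c + d l) : l ≥ 0}`. -/
def LinFam (a b c d : ℕ) : Set (ℕ × ℕ) := {x | ∃ l : ℕ, x = (a + b * l, c + d * l)}

/-- Finite unions of linear families. -/
def FinLin (S : Set (ℕ × ℕ)) : Prop :=
  ∃ T : Finset (ℕ × ℕ × ℕ × ℕ), S = {x | ∃ t ∈ T, x ∈ LinFam t.1 t.2.1 t.2.2.1 t.2.2.2}

/-- Multiplicative independence. -/
def Indep (δ ε : ℝ) : Prop := ∀ m n : ℕ, 0 < m → δ ^ m ≠ ε ^ n

end OrbitIntersections
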